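import Pool.Agent.H29.KT.Defs

/-!
# Relative compactified Albanese varieties of dimension four: the published facts that are used

`Numbers` and `Fib` are the structures of helper29 (file `H29.KT.Defs`): the characteristic numbers
of a hyperkaehler fourfold with `b_2 = 23`, and a Lagrangian fibration of a projective one with
Neron-Severi group of rank two.
-/

namespace Pool.Agent.H10.Alb

open Pool.Agent.H29.KT

/-- THE CHARACTERISTIC NUMBERS of an irreducible hyper-Kaehler variety of dimension four with Betti
numbers `b2`, `b3` and Beauville-Bogomolov form `q` on `H = H^2(X, Z)`. -/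
structure Chern (b2 b3 : ℕ) {H : Type} [AddCommGroup H] (q : H → H → ℤ) where
  /-- FUJIKI: the integral of `b^4` is `fuj q(b)^2`, the one of `c_2 b^2` is `cc q(b)`. -/
  fuj : ℚ
  cc : ℚ
  fuj_pos : 0 < fuj
  cc_pos : 0 < cc
  /-- the numbers `c_2^2` and `c_4`, and `b_4`: SALAMON's relation, GAUSS-BONNET, and RIEMANN-ROCH
  for the structure sheaf, `chi(O) = 3`. -/
  c22 : ℚ
  c4 : ℚ
  b4 : ℚ
  salamon : b4 = 46 + 10 * (b2 : ℚ) - (b3 : ℚ)
  euler_number : c4 = 2 + 2 * (b2 : ℚ) - 2 * (b3 : ℚ) + b4
  todd : (3 * c22 - c4) / 720 = 3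
  /-- HITCHIN-SAWON, NIEPER-WISSKIRCHEN, for the square root of the Todd genus, whose integral is
  `(7 c_2^2 - 4 c_4)/5760`. -/
  hitchin_sawon : cc ^ 2 = 384 * ((7 * c22 - 4 * c4) / 5760) * fuj
  /-- RIEMANN-ROCH: the Euler characteristic of a line bundle of class `b` (which exists on a
  deformation). -/
  rr : ∀ b : H, ∃ n : ℤ, fuj / 24 * (q b b : ℚ) ^ 2 + cc / 24 * (q b b : ℚ) + 3 = n
  /-- normalisation of the Beauville-Bogomolov form. -/
  prim : ∀ n : ℕ, (∀ a b, (n : ℤ) ∣ q a b) → n = 1

/-- THE IRREDUCIBLE HYPER-KAEHLER VARIETIES OF DIMENSION FOUR (smooth, projective, over the complex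
numbers) and their Lagrangian fibrations with integral fibres. -/
structure Fourfolds where
  X : Type
  /-- deformation equivalence of compact complex manifolds. -/
  DefEq : X → X → Prop
  symm : ∀ x y, DefEq x y → DefEq y x
  trans : ∀ x y z, DefEq x y → DefEq y z → DefEq x z
  b2 : X → ℕ
  b3 : X → ℕ
  b2_eq : ∀ x y, DefEq x y → b2 x = b2 y
  /-- GUAN's theorem on the Betti numbers (his bounds for `b_2 = 3` are not needed). -/
  guan : ∀ x, b2 x = 23 ∧ b3 x = 0 ∨ b2 x ≤ 8 ∧ ∃ l : ℕ, b3 x = 4 * l ∧
    (b2 x = 4 → l ≤ 15) ∧ (b2 x = 5 → l ≤ 9) ∧ (b2 x = 6 → l ≤ 4) ∧ (b2 x = 7 → l ≤ 2) ∧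
    (b2 x = 8 → l = 0)
  /-- the second integral cohomology with the Beauville-Bogomolov form. -/
  H : X → Type
  [grp : ∀ x, AddCommGroup (H x)]
  q : ∀ x, H x → H x → ℤ
  q_symm : ∀ x a b, q x a b = q x b a
  q_add : ∀ x a b c, q x (a + b) c = q x a c + q x b c
  chern : ∀ x, Chern (b2 x) (b3 x) (q x)
  /-- the integral of `a^2 b^2` (FUJIKI's relation). -/
  int : ∀ x, H x → H x → ℚ
  fujiki : ∀ x a b, int x a b =
    (chern x).fuj / 3 * ((q x a a : ℚ) * q x b b + 2 * (q x a b : ℚ) ^ 2)
  /-- deformation equivalent to the Hilbert scheme `S^[2]` of a K3 surface; these form one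
  deformation class (BEAUVILLE; K3 surfaces are deformation equivalent, KODAIRA). -/
  K32 : X → Prop
  k32 : ∀ x y, K32 x → K32 y → DefEq x y
  /-- DEBARRE, HUYBRECHTS, MACRI, VOISIN: two classes with integrals 0 and 2 force the type. -/
  dhmv : ∀ x a b, int x a a = 0 → int x a b = 2 → K32 x
  /-- the Lagrangian fibrations `pi : x → B` with integral fibres; `B` is the projective plane
  (MATSUSHITA, OU, HUYBRECHTS-XU). -/
  Fibration : X → Type
  /-- the signature of the form is `(3, b_2 - 3)`, and the class of the pull back of a line is not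
  zero and isotropic. -/
  four_le : ∀ x, Fibration x → 4 ≤ b2 x
  /-- `(1, d)` is the type of the polarisation `theta` of the smooth fibres `F`: the primitive class
  on `F` proportional to the restrictions of the classes of `x` (VOISIN, MATSUSHITA). -/
  d : ∀ x, Fibration x → ℕ
  /-- MATSUSHITA: the fibration is preserved by the small deformations for which the class `l` of
  a line stays algebraic; if an ample class does too, the general one is projective and has
  Neron-Severi group `NS` of rank two. -/
  general : ∀ x, Fibration x → b2 x = 23 → ∃ y, DefEq x y ∧ ∃ (NS : Set (H y)) (l : H y),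
    l ≠ 0 ∧ q y l l = 0 ∧ (∀ n : ℕ, ∀ y : H y, l = n • y → n = 1) ∧
    (∀ D ∈ NS, q y l D = 0 → ∃ m n : ℤ, m ≠ 0 ∧ m • D = n • l) ∧
    Nonempty (Fib (q y) NS (chern y).fuj l)
  /-- the relative compactified Albanese `pi' : x' → B` (SACCA): a Tate-Shafarevich twist of `pi`,
  so a Lagrangian fibration with the same fibres, with a section; `x'` is again an irreducible
  hyper-Kaehler variety and has the same rational cohomology. -/
  alb : ∀ x, Fibration x → X
  alb_fib : ∀ x (π : Fibration x), Fibration (alb x π)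
  alb_b2 : ∀ x (π : Fibration x), b2 (alb x π) = b2 x
  alb_b3 : ∀ x (π : Fibration x), b3 (alb x π) = b3 x
  /-- `L` is the class of the pull back of a line, `M` the one of the totally symmetric line bundle
  `(1, phi)^* P`, where `phi` is the homomorphism of `theta` and `P` the Poincare bundle
  (MUMFORD, Geometric Invariant Theory, 6.2); it is defined where `pi'` is smooth and extends, as
  `x'` is smooth. `M` restricts to `2 theta`, so the integral of `L^2 M^2` is `(2 theta)^2 = 8 d`. -/
  totally_symmetric : ∀ x (π : Fibration x), ∃ L M : H (alb x π),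
    q (alb x π) L L = 0 ∧ int (alb x π) L M = 8 * (d x π : ℚ)

attribute [instance] Fourfolds.grp

end Pool.Agent.H10.Alb
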