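import Pool.Agent.H10.Alb.Defs
import Pool.Agent.H29.KT.End

/-!
# The deformation type of the relative compactified Albanese in dimension four
-/

namespace Pool.Agent.H10.Alb

open Pool.Agent.H29.KT

/-- The number `992 - 4 b_2 + b_3 = 1152 td^(1/2)`. -/
theorem Chern.key {b2 b3 : ℕ} {H : Type} [AddCommGroup H] {q : H → H → ℤ}
    (C : Chern b2 b3 q) :
    C.cc ^ 2 = (992 - 4 * (b2 : ℚ) + (b3 : ℚ)) / 3 * C.fuj := by
  have h1 := C.hitchin_sawon
  have h2 : C.c22 = (2160 + C.c4) / 3 := by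
    have := C.todd
    linarith
  have h3 : C.c4 = 48 + 12 * (b2 : ℚ) - 3 * (b3 : ℚ) := by
    rw [C.euler_number, C.salamon]; ring
  rw [h1, h2, h3]
  ring

/-- THE ARITHMETIC OF A LAGRANGIAN FIBRATION WITH A SECTION: `d (992 - 4 b_2 + b_3)` is 36 times a
square. -/
theorem Chern.square {b2 b3 : ℕ} {H : Type} [AddCommGroup H] {q : H → H → ℤ}
    (C : Chern b2 b3 q) (hs : ∀ a b, q a b = q b a)
    (ha : ∀ a b c, q (a + b) c = q a c + q b c) (d : ℕ) (L M : H) (hL : q L L = 0)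
    (hM : C.fuj / 3 * ((q L L : ℚ) * q M M + 2 * (q L M : ℚ) ^ 2) = 8 * (d : ℚ))
    (hd : 0 < d) :
    ∃ k : ℤ, (d : ℤ) * (992 - 4 * (b2 : ℤ) + (b3 : ℤ)) = 36 * k ^ 2 := by
  have hM1 : C.fuj * (q L M : ℚ) ^ 2 = 12 * d := by
    rw [hL] at hM
    push_cast at hM
    linarith
  have hg : (q L M : ℚ) ≠ 0 := by
    intro h0
    rw [h0] at hM1
    have : (0 : ℚ) < d := by exact_mod_cast hd
    norm_num at hM1
    omega
  set g : ℚ := (q L M : ℚ) with hgdef
  set Q0 : ℚ := (q M M : ℚ) with hQ0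
  have hQ1 : (q (M + L) (M + L) : ℚ) = Q0 + 2 * g := by
    have : q (M + L) (M + L) = q M M + 2 * q L M := by
      rw [ha, hs M (M + L), hs L (M + L), ha, ha, hL, hs M L]
      ring
    rw [this]
    push_cast
    ring
  obtain ⟨n0, hn0⟩ := C.rr M
  obtain ⟨n1, hn1⟩ := C.rr (M + L)
  rw [hQ1] at hn1
  have hfuj : C.fuj = 12 * d / g ^ 2 := by
    field_simp
    exact hM1
  -- `u = cc g / 2`
  set u : ℚ := C.cc * g / 2 with hu
  have hcc : C.cc = 2 * u / g := by
    rw [hu]; field_simp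
  have hu2 : u ^ 2 = d * (992 - 4 * (b2 : ℚ) + (b3 : ℚ)) := by
    have hk := C.key
    rw [hu]
    have : (C.cc * g / 2) ^ 2 = C.cc ^ 2 * g ^ 2 / 4 := by ring
    rw [this, hk, hfuj]
    field_simp
    ring
  rw [hfuj, hcc] at hn0 hn1
  -- the first difference
  have hj : 2 * ((d : ℚ) * Q0 / g) + u / 6 = ((n1 - n0 - 2 * d : ℤ) : ℚ) := by
    push_cast
    rw [← hn0, ← hn1]
    field_simp
    ring
  set j : ℤ := n1 - n0 - 2 * d with hjdef
  have hw : ((d : ℚ) * Q0 / g) ^ 2 / 2 + u * ((d : ℚ) * Q0 / g) / 12 = d * ((n0 - 3 : ℤ) : ℚ) := by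
    push_cast
    rw [← hn0]
    field_simp
    ring
  set w : ℤ := n0 - 3 with hwdef
  have hu3 : u ^ 2 = 36 * ((j ^ 2 - 8 * d * w : ℤ) : ℚ) := by
    push_cast
    have h6 : 6 * (j : ℚ) = 12 * ((d : ℚ) * Q0 / g) + u := by rw [← hj]; ring
    have h36 : 36 * (j : ℚ) ^ 2 = (12 * ((d : ℚ) * Q0 / g) + u) ^ 2 := by rw [← h6]; ring
    have h288 : 288 * ((d : ℚ) * (w : ℚ)) =
        288 * (((d : ℚ) * Q0 / g) ^ 2 / 2 + u * ((d : ℚ) * Q0 / g) / 12) := by rw [hw]
    linear_combination (-1 : ℚ) * h36 + h288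
  -- `u / 6` is a rational number whose square is an integer
  obtain ⟨k, hk⟩ : ∃ k : ℤ, (k : ℚ) = u / 6 := by
    obtain ⟨t, ht⟩ : ∃ t : ℤ, (u / 6) ^ 2 = (t : ℚ) := by
      refine ⟨j ^ 2 - 8 * d * w, ?_⟩
      have : (u / 6) ^ 2 = u ^ 2 / 36 := by ring
      rw [this, hu3]; ring
    have h1 : IsIntegral ℤ (u / 6) := by
      refine ⟨Polynomial.X ^ 2 - Polynomial.C t, ?_, ?_⟩
      · exact Polynomial.monic_X_pow_sub_C _ two_ne_zero
      · rw [Polynomial.eval₂_sub, Polynomial.eval₂_pow, Polynomial.eval₂_X, Polynomial.eval₂_C, ht]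
        simp
    obtain ⟨k, hk⟩ := IsIntegrallyClosed.isIntegral_iff.mp h1
    exact ⟨k, by simpa using hk⟩
  refine ⟨k, ?_⟩
  have h : ((d : ℤ) * (992 - 4 * (b2 : ℤ) + (b3 : ℤ)) : ℤ) = ((36 * k ^ 2 : ℤ) : ℚ) := by
    push_cast
    rw [hk, ← hu2]
    ring
  exact_mod_cast h

/-- The polarisation types `(1, d)` with `d N = 9 u^2` for some `N` between 240 and 259 are not
excluded numerically when `b_2 ≤ 8`; `Good d` is the opposite. -/
def Good (d : ℕ) : Prop := ∀ N u : ℕ, 240 ≤ N → N ≤ 259 → d * N ≠ 9 * u ^ 2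

private theorem sq_of_squarefree {d s n m : ℕ} (hd : Squarefree d) (hs : Squarefree s)
    (h : d * (s * n ^ 2) = m ^ 2) (hn : n ≠ 0) : d = s ∧ m = d * n := by
  have hn2 : n ^ 2 ∣ m ^ 2 := ⟨d * s, by rw [← h]; ring⟩
  obtain ⟨k, rfl⟩ : n ∣ m := (Nat.pow_dvd_pow_iff two_ne_zero).mp hn2
  have hk : d * s = k ^ 2 := by
    have h1 : n ^ 2 * (d * s) = n ^ 2 * k ^ 2 := by
      calc n ^ 2 * (d * s) = d * (s * n ^ 2) := by ring
        _ = (n * k) ^ 2 := h
        _ = n ^ 2 * k ^ 2 := by ring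
    exact Nat.eq_of_mul_eq_mul_left (by positivity) h1
  have hdk : d ∣ k := by
    have : d ∣ k ^ 2 := ⟨s, hk.symm⟩
    exact (hd.dvd_pow_iff_dvd two_ne_zero).mp this
  have hsk : s ∣ k := by
    have : s ∣ k ^ 2 := ⟨d, by rw [← hk]; ring⟩
    exact (hs.dvd_pow_iff_dvd two_ne_zero).mp this
  obtain ⟨a, rfl⟩ := hdk
  obtain ⟨b, hb⟩ := hsk
  have hd0 : 0 < d := Nat.pos_of_ne_zero hd.ne_zero
  have hs0 : 0 < s := Nat.pos_of_ne_zero hs.ne_zero
  -- `s = d a^2`, `d = s b^2`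
  have h1 : s = d * a ^ 2 := by
    have : d * s = d * (d * a ^ 2) := by rw [hk]; ring
    exact Nat.eq_of_mul_eq_mul_left hd0 this
  have h2 : d = s * b ^ 2 := by
    have : s * d = s * (s * b ^ 2) := by
      calc s * d = d * s := by ring
        _ = (d * a) ^ 2 := hk
        _ = (s * b) ^ 2 := by rw [hb]
        _ = s * (s * b ^ 2) := by ring
    exact Nat.eq_of_mul_eq_mul_left hs0 this
  have h3 : a ^ 2 * b ^ 2 = 1 := by
    have : d * (a ^ 2 * b ^ 2) = d * 1 := by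
      calc d * (a ^ 2 * b ^ 2) = (d * a ^ 2) * b ^ 2 := by ring
        _ = s * b ^ 2 := by rw [← h1]
        _ = d * 1 := by rw [← h2]; ring
    exact Nat.eq_of_mul_eq_mul_left hd0 this
  have ha : a ^ 2 = 1 := Nat.eq_one_of_mul_eq_one_right h3
  have ha1 : a = 1 := by nlinarith [Nat.pos_of_ne_zero (show a ≠ 0 by rintro rfl; simp at ha)]
  subst ha1
  refine ⟨by rw [h1]; ring, by ring⟩

/-- The squarefree types which are not good. -/
theorem good_of_squarefree (d : ℕ) (hd : Squarefree d)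
    (h : d ∉ ({3, 7, 15, 246, 249, 255, 258} : Finset ℕ)) : Good d := by
  intro N u h1 h2 h3
  have key : ∀ s n : ℕ, Squarefree s → n ≠ 0 → N = s * n ^ 2 → d = s ∧ 3 ∣ d * n := by
    intro s n hs hn hN
    have h4 : d * (s * n ^ 2) = (3 * u) ^ 2 := by rw [← hN, h3]; ring
    obtain ⟨h5, h6⟩ := sq_of_squarefree hd hs h4 hn
    exact ⟨h5, ⟨u, h6.symm⟩⟩
  have no : ∀ s n : ℕ, Squarefree s → n ≠ 0 → N = s * n ^ 2 → ¬ 3 ∣ s * n → False := by
    intro s n hs hn hN h3
    obtain ⟨h5, h6⟩ := key s n hs hn hN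
    rw [h5] at h6
    exact h3 h6
  simp only [Finset.mem_insert, Finset.mem_singleton, not_or] at h
  obtain ⟨a1, a2, a3, a4, a5, a6, a7⟩ := h
  interval_cases N
  · exact a3 (key 15 4 (by decide +kernel) (by norm_num) (by norm_num)).1
  · exact no 241 1 (by decide +kernel) (by norm_num) (by norm_num) (by norm_num)
  · exact no 2 11 (by decide +kernel) (by norm_num) (by norm_num) (by norm_num)
  · exact a1 (key 3 9 (by decide +kernel) (by norm_num) (by norm_num)).1
  · exact no 61 2 (by decide +kernel) (by norm_num) (by norm_num) (by norm_num)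
  · exact no 5 7 (by decide +kernel) (by norm_num) (by norm_num) (by norm_num)
  · exact a4 (key 246 1 (by decide +kernel) (by norm_num) (by norm_num)).1
  · exact no 247 1 (by decide +kernel) (by norm_num) (by norm_num) (by norm_num)
  · exact no 62 2 (by decide +kernel) (by norm_num) (by norm_num) (by norm_num)
  · exact a5 (key 249 1 (by decide +kernel) (by norm_num) (by norm_num)).1
  · exact no 10 5 (by decide +kernel) (by norm_num) (by norm_num) (by norm_num)
  · exact no 251 1 (by decide +kernel) (by norm_num) (by norm_num) (by norm_num)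
  · exact a2 (key 7 6 (by decide +kernel) (by norm_num) (by norm_num)).1
  · exact no 253 1 (by decide +kernel) (by norm_num) (by norm_num) (by norm_num)
  · exact no 254 1 (by decide +kernel) (by norm_num) (by norm_num) (by norm_num)
  · exact a6 (key 255 1 (by decide +kernel) (by norm_num) (by norm_num)).1
  · exact no 1 16 (by decide +kernel) (by norm_num) (by norm_num) (by norm_num)
  · exact no 257 1 (by decide +kernel) (by norm_num) (by norm_num) (by norm_num)
  · exact a7 (key 258 1 (by decide +kernel) (by norm_num) (by norm_num)).1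
  · exact no 259 1 (by decide +kernel) (by norm_num) (by norm_num) (by norm_num)

/-- The characteristic numbers for `b_2 = 23`, `b_3 = 0`. -/
def Chern.toNumbers {b2 b3 : ℕ} {H : Type} [AddCommGroup H] {q : H → H → ℤ}
    (C : Chern b2 b3 q) (h2 : b2 = 23) (h3 : b3 = 0) : Numbers q where
  fuj := C.fuj
  cc := C.cc
  fuj_pos := C.fuj_pos
  cc_pos := C.cc_pos
  b3 := b3
  b4 := C.b4
  guan := by rw [h3]; norm_num
  salamon := by
    have := C.salamon
    have h : (b2 : ℚ) = 23 := by exact_mod_cast h2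
    linarith
  c22 := C.c22
  c4 := C.c4
  euler_number := by
    have := C.euler_number
    have h : (b2 : ℚ) = 23 := by exact_mod_cast h2
    linarith
  todd := C.todd
  hitchin_sawon := C.hitchin_sawon
  rr := C.rr
  prim := C.prim

variable (W : Fourfolds)

/-- A fourfold with a Lagrangian fibration with integral fibres and `b_2 = 23` is of
`K3^[2]`-type. -/
theorem type_of_fibration (x : W.X) (π : W.Fibration x)
    (h23 : W.b2 x = 23) : ∃ y, W.DefEq x y ∧ W.K32 y := by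
  obtain ⟨y, hxy, NS, l, -, hll, -, hNS, ⟨F⟩⟩ := W.general x π h23
  refine ⟨y, hxy, ?_⟩
  have hy : W.b2 y = 23 := (W.b2_eq x y hxy).symm.trans h23
  have hy3 : W.b3 y = 0 := by
    rcases W.guan y with ⟨-, h⟩ | ⟨h, -⟩
    · exact h
    · omega
  obtain ⟨hfuj, -, a, b, ha, hb, hab⟩ :=
    ((W.chern y).toNumbers hy hy3).of_fib (W.q_symm y) (W.q_add y) hll hNS F
  have hfuj' : (W.chern y).fuj = 3 := hfuj
  have hsq : (W.q y a b : ℚ) ^ 2 = 1 := by
    rcases hab with h | h <;> rw [h] <;> norm_num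
  refine W.dhmv y a b ?_ ?_
  · rw [W.fujiki y, ha]
    simp
  · rw [W.fujiki y, ha, hb, hsq, hfuj']
    norm_num

/-- A good type forces `b_2 = 23`. -/
theorem b2_of_good (x : W.X) (π : W.Fibration x) (hd : Good (W.d x π)) : W.b2 x = 23 := by
  have hd0 : 0 < W.d x π := by
    rcases Nat.eq_zero_or_pos (W.d x π) with h | h
    · exfalso
      exact hd 240 0 le_rfl (by norm_num) (by rw [h]; norm_num)
    · exact h
  obtain ⟨L, M, hL, hLM⟩ := W.totally_symmetric x π
  rw [W.fujiki] at hLM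
  obtain ⟨k, hk⟩ := (W.chern (W.alb x π)).square (W.q_symm _) (W.q_add _) (W.d x π) L M hL
    hLM hd0
  rw [W.alb_b2, W.alb_b3] at hk
  have h4 := W.four_le x π
  rcases W.guan x with ⟨h, -⟩ | ⟨h8, l, hl, c4, c5, c6, c7, c8⟩
  · exact h
  exfalso
  -- `N = 248 - b_2 + l`
  have hN : ∃ N : ℕ, (N : ℤ) = 248 - (W.b2 x : ℤ) + l ∧ 240 ≤ N ∧ N ≤ 259 := by
    refine ⟨248 - W.b2 x + l, by omega, by omega, ?_⟩
    have h1 : W.b2 x = 4 ∨ W.b2 x = 5 ∨ W.b2 x = 6 ∨ W.b2 x = 7 ∨ W.b2 x = 8 := by omega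
    rcases h1 with h | h | h | h | h
    · have := c4 h; omega
    · have := c5 h; omega
    · have := c6 h; omega
    · have := c7 h; omega
    · have := c8 h; omega
  obtain ⟨N, hN, h240, h259⟩ := hN
  refine hd N k.natAbs h240 h259 ?_
  have h9 : ((W.d x π : ℕ) : ℤ) * (N : ℤ) = 9 * k ^ 2 := by
    rw [hl] at hk
    push_cast at hk
    rw [hN]
    linarith
  have h10 : (((W.d x π) * N : ℕ) : ℤ) = ((9 * k.natAbs ^ 2 : ℕ) : ℤ) := by
    push_cast
    rw [sq_abs]
    exact h9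
  exact_mod_cast h10

/-- THE MAIN THEOREM. -/
theorem main (x : W.X) (π : W.Fibration x)
    (h : 9 ≤ W.b2 x ∨ Good (W.d x π)) : W.DefEq x (W.alb x π) := by
  have h23 : W.b2 x = 23 := by
    rcases h with h | h
    · rcases W.guan x with ⟨h1, -⟩ | ⟨h1, -⟩
      · exact h1
      · omega
    · exact b2_of_good W x π h
  obtain ⟨y, hxy, hy⟩ := type_of_fibration W x π h23
  obtain ⟨z, hxz, hz⟩ := type_of_fibration W (W.alb x π) (W.alb_fib x π)
    ((W.alb_b2 x π).trans h23)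
  exact W.trans _ _ _ hxy (W.trans _ _ _ (W.k32 y z hy hz) (W.symm _ _ hxz))

end Pool.Agent.H10.Alb
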